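import Mathlib

/-!
# Algebraic branching programs and determinants

The polynomial computed by an algebraic branching program is the determinant of a matrix of affine
forms whose size is at most one more than the number of vertices with a non-constant outgoing edge.
-/

namespace Pool.Agent.Work.MP_499dc6_lc.Abp

open Matrix MvPolynomial

variable {R : Type*} [CommRing R] {S : ℕ}

/-- Strictly upper triangular matrices: the powers move up. -/
theorem pow_apply_eq_zero (L : Matrix (Fin S) (Fin S) R) (hL : ∀ u v, ¬ u < v → L u v = 0) (l : ℕ) :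
    ∀ u v : Fin S, (v : ℕ) < u + l → (L ^ l) u v = 0 := by
  induction l with
  | zero =>
    intro u v h
    have : u ≠ v := by rintro rfl; simp at h
    simp [this]
  | succ l ih =>
    intro u v h
    rw [pow_succ, Matrix.mul_apply]
    refine Finset.sum_eq_zero fun w _ => ?_
    by_cases hw : (w : ℕ) < u + l
    · rw [ih u w hw, zero_mul]
    · rw [hL w v (by rw [Fin.lt_def]; omega), mul_zero]

theorem det_one_sub (L : Matrix (Fin S) (Fin S) R) (hL : ∀ u v, ¬ u < v → L u v = 0) :
    (1 - L).det = 1 := by
  rw [Matrix.det_of_isUpperTriangular]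
  · refine Finset.prod_eq_one fun i _ => ?_
    simp [hL i i (lt_irrefl i)]
  · intro i j hij
    have h1 : j < i := hij
    simp [hL i j (not_lt.2 h1.le), h1.ne']

theorem adjugate_one_sub (L : Matrix (Fin S) (Fin S) R) (hL : ∀ u v, ¬ u < v → L u v = 0) :
    (1 - L).adjugate = ∑ l ∈ Finset.range S, L ^ l := by
  have h1 : L ^ S = 0 := by
    ext u v
    exact pow_apply_eq_zero L hL S u v (by omega)
  have h2 : (1 - L) * ∑ l ∈ Finset.range S, L ^ l = 1 := by
    have h := mul_geom_sum L S
    rw [h1] at h
    have h3 : (1 - L) * ∑ l ∈ Finset.range S, L ^ l = -((L - 1) * ∑ l ∈ Finset.range S, L ^ l) := by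
      rw [← neg_mul, neg_sub]
    rw [h3, h]
    simp
  calc (1 - L).adjugate = (1 - L).adjugate * ((1 - L) * ∑ l ∈ Finset.range S, L ^ l) := by
        rw [h2, mul_one]
    _ = ((1 - L).adjugate * (1 - L)) * ∑ l ∈ Finset.range S, L ^ l := by rw [Matrix.mul_assoc]
    _ = ∑ l ∈ Finset.range S, L ^ l := by
        rw [Matrix.adjugate_mul, det_one_sub L hL, one_smul, one_mul]

variable {K : Type*} [Field K] {σ : Type*} [Fintype σ]

/-- The matrix of labels. -/
noncomputable def lab (c0 : Fin S → Fin S → K) (c1 : Fin S → Fin S → σ → K) :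
    Matrix (Fin S) (Fin S) (MvPolynomial σ K) :=
  Matrix.of fun u v =>
    if u < v then MvPolynomial.C (c0 u v) + ∑ e, MvPolynomial.C (c1 u v e) * MvPolynomial.X e
    else 0

/-- The computed polynomial is a determinant of affine forms of size at most one more than the
number of vertices with a non-constant outgoing edge. -/
theorem exists_det (c0 : Fin S → Fin S → K) (c1 : Fin S → Fin S → σ → K) (s t : Fin S)
    (U : Finset (Fin S)) (hU : ∀ u v e, u < v → c1 u v e ≠ 0 → u ∈ U) :
    ∃ (n : ℕ) (A0 : Matrix (Fin n) (Fin n) K) (A1 : σ → Matrix (Fin n) (Fin n) K),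
      n ≤ U.card + 1 ∧
      (A0.map C + ∑ e, (X e : MvPolynomial σ K) • (A1 e).map C).det =
        ∑ l ∈ Finset.range S, ((lab c0 c1) ^ l) s t := by
  classical
  set L := lab c0 c1 with hLdef
  have hL : ∀ u v, ¬ u < v → L u v = 0 := fun u v h => by simp [hLdef, lab, h]
  set B0 : Matrix (Fin S) (Fin S) K := Matrix.of fun u v => if u < v then c0 u v else 0 with hB0
  have hB0' : ∀ u v, ¬ u < v → B0 u v = 0 := fun u v h => by simp [hB0, h]
  set N : Matrix (Fin S) (Fin S) K := (1 - B0).adjugate with hN
  have hdN : N.det = 1 := by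
    rw [hN, Matrix.det_adjugate, det_one_sub B0 hB0', one_pow]
  have hBN : (1 - B0) * N = 1 := by
    rw [hN, Matrix.mul_adjugate, det_one_sub B0 hB0', one_smul]
  -- the affine part
  let D : σ → Matrix (Fin S) (Fin S) K := fun e => Matrix.of fun u v => if u < v then c1 u v e else 0
  have hLd : L = B0.map C + ∑ e, (X e : MvPolynomial σ K) • (D e).map C := by
    ext1 u v
    simp only [hLdef, lab, Matrix.of_apply, Matrix.add_apply, Matrix.map_apply, hB0, D,
      Matrix.sum_apply, Matrix.smul_apply, smul_eq_mul]
    split_ifs with h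
    · congr 1
      exact Finset.sum_congr rfl fun e _ => mul_comm _ _
    · simp
  have h1 : (1 - L) * N.map C = 1 - ∑ e, (X e : MvPolynomial σ K) • (D e * N).map C := by
    have h2 : (1 - L) = (1 - B0).map C - ∑ e, (X e : MvPolynomial σ K) • (D e).map C := by
      rw [hLd, Matrix.map_sub _ (by intro a b; simp), Matrix.map_one _ (by simp) (by simp)]
      abel
    rw [h2, Matrix.sub_mul, Finset.sum_mul, ← RingHom.mapMatrix_apply, ← RingHom.mapMatrix_apply,
      ← map_mul, hBN, map_one]
    congr 1
    refine Finset.sum_congr rfl fun e _ => ?_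
    rw [Matrix.smul_mul, ← RingHom.mapMatrix_apply, ← RingHom.mapMatrix_apply, map_mul]
  set T : Matrix (Fin S) (Fin S) (MvPolynomial σ K) :=
    ((1 - L).updateRow t (Pi.single s 1)) * N.map C with hT
  have hT1 : T.det = ∑ l ∈ Finset.range S, (L ^ l) s t := by
    have h3 : (N.map (C : K → MvPolynomial σ K)).det = 1 := by
      rw [← RingHom.mapMatrix_apply, ← RingHom.map_det, hdN, map_one]
    rw [hT, Matrix.det_mul, h3, mul_one, ← Matrix.adjugate_apply, adjugate_one_sub L hL,
      Matrix.sum_apply]
  have hT2 : T = (1 - ∑ e, (X e : MvPolynomial σ K) • (D e * N).map C).updateRow t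
      (fun j => C (N s j)) := by
    rw [hT, Matrix.updateRow_mul, h1]
    congr 1
    ext1 j
    simp [Matrix.vecMul, dotProduct, Pi.single_apply]
  let p : Fin S → Prop := fun u => u = t ∨ u ∈ U
  have hz : ∀ (u : Fin S) (e : σ), u ∉ U → ∀ j, (D e * N) u j = 0 := by
    intro u e hu j
    rw [Matrix.mul_apply]
    refine Finset.sum_eq_zero fun w _ => ?_
    have : D e u w = 0 := by
      simp only [D, Matrix.of_apply]
      split_ifs with h
      · by_contra hne
        exact hu (hU u w e h hne)
      · rfl
    rw [this, zero_mul]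
  have hrow : ∀ i, ¬ p i → ∀ j, T i j = (1 : Matrix (Fin S) (Fin S) (MvPolynomial σ K)) i j := by
    intro i hi j
    have hit : i ≠ t := fun h => hi (by simp [p, h])
    have hiU : i ∉ U := fun h => hi (by simp [p, h])
    rw [hT2, Matrix.updateRow_ne hit, Matrix.sub_apply, Matrix.sum_apply]
    rw [Finset.sum_eq_zero, sub_zero]
    intro e _
    rw [Matrix.smul_apply, Matrix.map_apply, hz i e hiU j, map_zero, smul_zero]
  have hdet : T.det = (toSquareBlockProp T p).det := by
    rw [Matrix.twoBlockTriangular_det T p]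
    · have : (toSquareBlockProp T fun i => ¬ p i) = 1 := by
        ext1 i j
        rw [Matrix.toSquareBlockProp_def, Matrix.of_apply, hrow i.1 i.2 j.1]
        simp [Matrix.one_apply, Subtype.ext_iff]
      rw [this, Matrix.det_one, mul_one]
    · intro i hi j hj
      rw [hrow i hi j, Matrix.one_apply_ne]
      rintro rfl
      exact hi hj
  let A0' : Matrix (Fin S) (Fin S) K := (1 : Matrix (Fin S) (Fin S) K).updateRow t (fun j => N s j)
  let A1' : σ → Matrix (Fin S) (Fin S) K := fun e => (-(D e * N)).updateRow t 0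
  have hT3 : T = A0'.map C + ∑ e, (X e : MvPolynomial σ K) • (A1' e).map C := by
    rw [hT2]
    ext1 i j
    by_cases hit : i = t
    · subst hit
      simp [A0', A1', Matrix.sum_apply]
    · simp [A0', A1', Matrix.sum_apply, Matrix.updateRow_ne hit, Matrix.one_apply, sub_eq_add_neg,
        apply_ite (C : K → MvPolynomial σ K), -Matrix.map_mul]
  let ε := Fintype.equivFin {u : Fin S // p u}
  have hcard : Fintype.card {u : Fin S // p u} ≤ U.card + 1 := by
    rw [Fintype.card_subtype]
    refine (Finset.card_le_card (t := insert t U) fun u hu => ?_).trans (Finset.card_insert_le _ _)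
    have hu' : u = t ∨ u ∈ U := (Finset.mem_filter.1 hu).2
    exact Finset.mem_insert.2 hu'
  refine ⟨Fintype.card {u : Fin S // p u},
    (toSquareBlockProp A0' p).submatrix ε.symm ε.symm,
    fun e => (toSquareBlockProp (A1' e) p).submatrix ε.symm ε.symm, hcard, ?_⟩
  rw [← hT1, hdet, ← Matrix.det_submatrix_equiv_self ε.symm]
  congr 1
  ext1 i j
  simp [Matrix.toSquareBlockProp, hT3, Matrix.sum_apply]

end Pool.Agent.Work.MP_499dc6_lc.Abp
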